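import Pool.Agent.H39.Newt.Stmts

/-!
# GRP: products of `x^β - 1` in a group ring, by counting lattice points
-/

set_option autoImplicit false

namespace Pool.Newt

open MvPolynomial Pool.Agent.H39.MonoR Pool.Agent.H75.Mono

open Filter

/-- the linear functional `x^m ↦ F m` -/
noncomputable def GRP_L {A : Type} (F : A → ℚ) : AddMonoidAlgebra ℚ A →+ ℚ :=
  (Finsupp.liftAddHom fun m => AddMonoidHom.mulRight (F m)).comp
    AddMonoidAlgebra.coeffAddEquiv.toAddMonoidHom

theorem GRP_L_apply {A : Type} (F : A → ℚ) (g : AddMonoidAlgebra ℚ A) :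
    GRP_L F g = ∑ m ∈ g.coeff.support, g.coeff m * F m := by
  simp [GRP_L, Finsupp.sum]

theorem GRP_L_single {A : Type} (F : A → ℚ) (m : A) (r : ℚ) :
    GRP_L F (AddMonoidAlgebra.single m r) = r * F m := by
  simp [GRP_L]

section

variable {A : Type} [AddCommGroup A] {D : Type} [Fintype D] [DecidableEq D] (β : D → A)

/-- the representations of `y` with `ν = 0` on `S` -/
def GRP_R (S : Finset D) (y : A) : Set (D → ℕ) := {ν | (∀ d ∈ S, ν d = 0) ∧ ∑ d, ν d • β d = y}

/-- the number of representations -/
noncomputable def GRP_c (S : Finset D) (y : A) : ℚ := ((GRP_R β S y).ncard : ℚ)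

variable (hpt : ∀ ν : D → ℕ, ∑ d, ν d • β d = 0 → ν = 0)

include hpt in
theorem GRP_fin (S : Finset D) (y : A) : (GRP_R β S y).Finite := by
  refine Set.Finite.subset ?_ (fun ν h => h.2 : GRP_R β S y ⊆ {ν | ∑ d, ν d • β d = y})
  have hanti : IsAntichain (· ≤ ·) {ν : D → ℕ | ∑ d, ν d • β d = y} := by
    intro ν hν ν' hν' hne hle
    apply hne
    have h1 : ∑ d, (ν' d - ν d) • β d = 0 := by
      have h2 : ∑ d, (ν' d - ν d) • β d + ∑ d, ν d • β d = ∑ d, ν' d • β d := by
        rw [← Finset.sum_add_distrib]
        refine Finset.sum_congr rfl fun d _ => ?_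
        rw [← add_nsmul, Nat.sub_add_cancel (hle d)]
      rw [hν, hν'] at h2
      simpa using h2
    have h3 := hpt (fun d => ν' d - ν d) h1
    ext d
    have h4 : ν' d - ν d = 0 := congrFun h3 d
    have h5 : ν d ≤ ν' d := hle d
    omega
  exact hanti.finite_of_partiallyWellOrderedOn (Set.isPWO_of_wellQuasiOrderedLE _)

include hpt in
theorem GRP_rec (S : Finset D) (d₀ : D) (hd : d₀ ∉ S) (y : A) :
    GRP_c β S y = GRP_c β S (y - β d₀) + GRP_c β (insert d₀ S) y := by
  have hsum : ∀ ν : D → ℕ, ∑ d, (ν + Pi.single d₀ 1 : D → ℕ) d • β d =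
      ∑ d, ν d • β d + β d₀ := by
    intro ν
    simp only [Pi.add_apply, add_nsmul, Finset.sum_add_distrib]
    congr 1
    rw [Finset.sum_eq_single d₀]
    · simp
    · intro b _ hb
      simp [Pi.single_eq_of_ne hb]
    · simp
  have h1 : GRP_R β S y = (fun ν : D → ℕ => ν + Pi.single d₀ 1) '' (GRP_R β S (y - β d₀)) ∪
      GRP_R β (insert d₀ S) y := by
    ext ν
    constructor
    · rintro ⟨h2, h3⟩
      by_cases h0 : ν d₀ = 0
      · right
        refine ⟨fun d hdS => ?_, h3⟩
        rcases Finset.mem_insert.1 hdS with rfl | h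
        · exact h0
        · exact h2 d h
      · left
        have h4 : ν = (fun d => if d = d₀ then ν d - 1 else ν d) + Pi.single d₀ 1 := by
          ext d
          by_cases hdd : d = d₀
          · subst hdd
            simp
            omega
          · simp [hdd]
        refine ⟨fun d => if d = d₀ then ν d - 1 else ν d, ⟨fun d hdS => ?_, ?_⟩, h4.symm⟩
        · have : d ≠ d₀ := fun h => hd (h ▸ hdS)
          simp [this, h2 d hdS]
        · rw [eq_sub_iff_add_eq, ← hsum, ← h4]
          exact h3
    · rintro (⟨ν, ⟨h2, h3⟩, rfl⟩ | ⟨h2, h3⟩)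
      · refine ⟨fun d hdS => ?_, ?_⟩
        · have : d ≠ d₀ := fun h => hd (h ▸ hdS)
          simp [h2 d hdS, this]
        · simp only
          rw [hsum, h3]
          abel
      · exact ⟨fun d hdS => h2 d (Finset.mem_insert_of_mem hdS), h3⟩
  have hdisj : Disjoint ((fun ν : D → ℕ => ν + Pi.single d₀ 1) '' (GRP_R β S (y - β d₀)))
      (GRP_R β (insert d₀ S) y) := by
    rw [Set.disjoint_left]
    rintro _ ⟨ν, _, rfl⟩ ⟨h, _⟩
    have := h d₀ (Finset.mem_insert_self _ _)
    simp at this
  unfold GRP_c
  rw [h1, Set.ncard_union_eq hdisj ((GRP_fin β hpt S _).image _) (GRP_fin β hpt _ _),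
    Set.ncard_image_of_injective _ (add_left_injective _)]
  push_cast
  rfl

include hpt in
theorem GRP_step (S : Finset D) (d₀ : D) (hd : d₀ ∉ S) (Y : A) (g : AddMonoidAlgebra ℚ A) :
    GRP_L (fun m => GRP_c β S (Y - m)) (g * (AddMonoidAlgebra.single (β d₀) 1 - 1)) =
      -GRP_L (fun m => GRP_c β (insert d₀ S) (Y - m)) g := by
  have h : (GRP_L (fun m => GRP_c β S (Y - m))).comp
      (AddMonoidHom.mulRight (AddMonoidAlgebra.single (β d₀) (1 : ℚ) - 1)) =
      -GRP_L (fun m => GRP_c β (insert d₀ S) (Y - m)) := by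
    refine AddMonoidAlgebra.addMonoidHom_ext fun m r => ?_
    simp only [AddMonoidHom.comp_apply, AddMonoidHom.neg_apply, AddMonoidHom.mulRight_apply]
    rw [mul_sub, mul_one, AddMonoidAlgebra.single_mul_single, mul_one, map_sub, GRP_L_single,
      GRP_L_single, GRP_L_single]
    have h1 := GRP_rec β hpt S d₀ hd (Y - m)
    have h2 : Y - (m + β d₀) = Y - m - β d₀ := by abel
    rw [h2, h1]
    ring
  exact DFunLike.congr_fun h g

include hpt in
theorem GRP_prod (S : Finset D) (Y : A) (g : AddMonoidAlgebra ℚ A) :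
    GRP_L (fun m => GRP_c β ∅ (Y - m))
      (g * ∏ d ∈ S, (AddMonoidAlgebra.single (β d) (1 : ℚ) - 1)) =
      (-1) ^ S.card * GRP_L (fun m => GRP_c β S (Y - m)) g := by
  induction S using Finset.induction_on generalizing g with
  | empty => simp
  | insert d S hd ih =>
    rw [Finset.prod_insert hd, ← mul_assoc, ih, GRP_step β hpt S d hd, Finset.card_insert_of_notMem hd]
    ring

end

theorem sGrp : SGrp := by
  classical
  intro A _ D _ _ β B hpt hind hc hhc 𝒢 h𝒢 ε hε u hu hmem
  set h : A := ∑ d ∈ B, hc d • β d with hh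
  -- the coset of a nonzero coset sum
  let φ : (D → ℤ) →+ A :=
    { toFun := fun z => ∑ d ∈ B, z d • β d
      map_zero' := by simp
      map_add' := fun x y => by simp [add_smul, Finset.sum_add_distrib] }
  let π : A →+ A ⧸ φ.range := QuotientAddGroup.mk' φ.range
  have hεu : ε u = ∑ m ∈ u.coeff.support, u.coeff m := by
    have h1 : (ε : AddMonoidAlgebra ℚ A →+ ℚ) = GRP_L fun _ => 1 := by
      refine AddMonoidAlgebra.addMonoidHom_ext fun m r => ?_
      rw [GRP_L_single]
      have h2 : AddMonoidAlgebra.single m r = r • AddMonoidAlgebra.single m (1 : ℚ) := by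
        simp
      show ε (AddMonoidAlgebra.single m r) = r * 1
      rw [h2, map_smul, hε]
      rfl
    have h2 := DFunLike.congr_fun h1 u
    rw [GRP_L_apply] at h2
    simpa using h2
  obtain ⟨q, hq⟩ : ∃ q : A ⧸ φ.range,
      ∑ m ∈ u.coeff.support.filter (fun m => π m = q), u.coeff m ≠ 0 := by
    by_contra hcon
    push Not at hcon
    apply hu
    rw [hεu, ← Finset.sum_fiberwise_of_maps_to (g := fun m => π m)
      (t := u.coeff.support.image fun m => π m)
      (fun m hm => Finset.mem_image_of_mem _ hm)]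
    exact Finset.sum_eq_zero fun q _ => hcon q
  obtain ⟨m₀, rfl⟩ : ∃ m₀, π m₀ = q := QuotientAddGroup.mk'_surjective _ q
  -- the functionals
  let Λ : ℕ → Finset D → AddMonoidAlgebra ℚ A →+ ℚ := fun M S =>
    GRP_L fun m => GRP_c β S (M • h + m₀ - m)
  -- they vanish on the ideal
  have hideal : ∀ z ∈ Ideal.span {g : AddMonoidAlgebra ℚ A | ∃ S ∈ 𝒢,
      g = ∏ d ∈ S, (AddMonoidAlgebra.single (β d) 1 - 1)}, ∀ g : AddMonoidAlgebra ℚ A,
      ∀ᶠ M in atTop, Λ M ∅ (g * z) = 0 := by
    intro z hz
    refine Submodule.span_induction (p := fun z _ => ∀ g : AddMonoidAlgebra ℚ A,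
      ∀ᶠ M in atTop, Λ M ∅ (g * z) = 0) ?_ ?_ ?_ ?_ hz
    · rintro _ ⟨S, hS, rfl⟩ g
      obtain ⟨ψ, hψ, hψ'⟩ := h𝒢 S hS
      have hev : ∀ᶠ M : ℕ in atTop, ∀ m ∈ g.coeff.support, 0 < ψ ((M : ℕ) • h + m₀ - m) := by
        rw [Filter.eventually_all_finset]
        intro m _
        filter_upwards [eventually_ge_atTop ((-ψ (m₀ - m)).toNat + 1)] with M hM
        rw [add_sub_assoc, map_add, map_nsmul, nsmul_eq_mul]
        have h1 : (-ψ (m₀ - m)) < (M : ℤ) := by
          have := Int.self_le_toNat (-ψ (m₀ - m))
          omega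
        have h2 : (M : ℤ) * 1 ≤ (M : ℤ) * ψ h :=
          mul_le_mul_of_nonneg_left (by omega) (by omega)
        linarith
      filter_upwards [hev] with M hM
      show GRP_L (fun m => GRP_c β ∅ (M • h + m₀ - m)) _ = 0
      rw [GRP_prod β hpt, GRP_L_apply]
      rw [Finset.sum_eq_zero, mul_zero]
      intro m hm
      have h1 : GRP_R β S (M • h + m₀ - m) = ∅ := by
        rw [Set.eq_empty_iff_forall_notMem]
        rintro ν ⟨h2, h3⟩
        have h4 := hM m hm
        rw [← h3, map_sum] at h4
        have h5 : ∑ d, ψ (ν d • β d) ≤ 0 := by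
          refine Finset.sum_nonpos fun d _ => ?_
          rw [map_nsmul, nsmul_eq_mul]
          by_cases hd : d ∈ S
          · rw [h2 d hd]
            simp
          · exact mul_nonpos_of_nonneg_of_nonpos (by positivity) (hψ' d hd)
        omega
      simp only [GRP_c, h1, Set.ncard_empty, Nat.cast_zero, mul_zero]
    · intro g
      simp
    · intro x y _ _ hx hy g
      filter_upwards [hx g, hy g] with M h1 h2
      rw [mul_add, map_add, h1, h2, add_zero]
    · intro a x _ hx g
      rw [smul_eq_mul, ← mul_assoc]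
      exact hx (g * a)
  have hev := hideal _ hmem 1
  -- the value on `u ∏ (x^β - 1)`
  have hval : ∀ᶠ M in atTop, Λ M Bᶜ u =
      ∑ m ∈ u.coeff.support.filter (fun m => π m = π m₀), u.coeff m := by
    have hev2 : ∀ᶠ M : ℕ in atTop, ∀ m ∈ u.coeff.support,
        GRP_c β Bᶜ (M • h + m₀ - m) = if π m = π m₀ then 1 else 0 := by
      rw [Filter.eventually_all_finset]
      intro m _
      by_cases hm : π m = π m₀
      · have h1 : m₀ - m ∈ φ.range := by
          have h2 : π (m₀ - m) = 0 := by rw [map_sub, hm, sub_self]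
          exact (QuotientAddGroup.eq_zero_iff _).1 h2
        obtain ⟨z, hz⟩ := h1
        have hz' : ∑ d ∈ B, z d • β d = m₀ - m := hz
        have hev3 : ∀ᶠ M : ℕ in atTop, ∀ d ∈ B, 0 ≤ (M : ℤ) * hc d + z d := by
          rw [Filter.eventually_all_finset]
          intro d hd
          filter_upwards [eventually_ge_atTop (-z d).toNat] with M hM
          have h2 : (-z d) ≤ (M : ℤ) := by
            have := Int.self_le_toNat (-z d)
            omega
          have h3 : (M : ℤ) * 1 ≤ (M : ℤ) * hc d := by
            have := hhc d hd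
            exact mul_le_mul_of_nonneg_left (by omega) (by omega)
          linarith
        filter_upwards [hev3] with M hM
        rw [if_pos hm]
        have h4 : GRP_R β Bᶜ (M • h + m₀ - m) =
            {fun d => if d ∈ B then ((M : ℤ) * hc d + z d).toNat else 0} := by
          have hmemν : (fun d => if d ∈ B then ((M : ℤ) * hc d + z d).toNat else 0) ∈
              GRP_R β Bᶜ (M • h + m₀ - m) := by
            refine ⟨fun d hd => ?_, ?_⟩
            · rw [Finset.mem_compl] at hd
              simp [hd]
            · have h5 : ∑ d, (if d ∈ B then ((M : ℤ) * hc d + z d).toNat else 0) • β d =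
                  ∑ d ∈ B, ((M : ℤ) * hc d + z d).toNat • β d := by
                rw [← Finset.sum_subset (Finset.subset_univ B)]
                · refine Finset.sum_congr rfl fun d hd => ?_
                  rw [if_pos hd]
                · intro d _ hd
                  rw [if_neg hd, zero_smul]
              rw [h5, add_sub_assoc, ← hz', hh, Finset.smul_sum, ← Finset.sum_add_distrib]
              refine Finset.sum_congr rfl fun d hd => ?_
              have h6 : ((((M : ℤ) * hc d + z d).toNat : ℕ) : ℤ) • β d =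
                  (M • hc d • β d) + z d • β d := by
                rw [Int.toNat_of_nonneg (hM d hd), add_smul, mul_smul]
                simp only [natCast_zsmul]
              rw [← h6, natCast_zsmul]
          refine Set.eq_singleton_iff_unique_mem.2 ⟨hmemν, fun ν hν => ?_⟩
          have h7 := hind (fun d => (ν d : ℤ) -
            (if d ∈ B then ((M : ℤ) * hc d + z d).toNat else 0 : ℕ)) (fun d hd => by
              have : ν d = 0 := hν.1 d (Finset.mem_compl.2 hd)
              simp [this, hd]) (by
              have h8 := hν.2.trans hmemν.2.symm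
              simp only [sub_smul, Finset.sum_sub_distrib, natCast_zsmul]
              rw [h8, sub_self])
          ext d
          have h9 := congrFun h7 d
          simp only [Pi.zero_apply] at h9
          omega
        simp [GRP_c, h4]
      · refine Eventually.of_forall fun M => ?_
        rw [if_neg hm]
        have h4 : GRP_R β Bᶜ (M • h + m₀ - m) = ∅ := by
          rw [Set.eq_empty_iff_forall_notMem]
          rintro ν ⟨h2, h3⟩
          apply hm
          have h5 : m₀ - m ∈ φ.range := by
            refine ⟨fun d => (ν d : ℤ) - (M : ℤ) * hc d, ?_⟩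
            show ∑ d ∈ B, ((ν d : ℤ) - (M : ℤ) * hc d) • β d = m₀ - m
            have h6 : ∑ d, ν d • β d = ∑ d ∈ B, ν d • β d := by
              symm
              refine Finset.sum_subset (Finset.subset_univ B) fun d _ hd => ?_
              rw [h2 d (Finset.mem_compl.2 hd), zero_smul]
            have h7 : m₀ - m = ∑ d ∈ B, ν d • β d - M • h := by
              rw [← h6, h3]
              abel
            rw [h7, hh, Finset.smul_sum, ← Finset.sum_sub_distrib]
            refine Finset.sum_congr rfl fun d _ => ?_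
            rw [sub_smul, mul_smul]
            simp only [natCast_zsmul]
          have h8 : π (m₀ - m) = 0 := (QuotientAddGroup.eq_zero_iff _).2 h5
          rw [map_sub, sub_eq_zero] at h8
          exact h8.symm
        simp [GRP_c, h4]
    filter_upwards [hev2] with M hM
    show GRP_L (fun m => GRP_c β Bᶜ (M • h + m₀ - m)) u = _
    rw [GRP_L_apply, Finset.sum_filter]
    refine Finset.sum_congr rfl fun m hm => ?_
    rw [hM m hm]
    simp
  obtain ⟨M, h1, h2⟩ := (hev.and hval).exists
  rw [one_mul] at h1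
  have h3 := GRP_prod β hpt Bᶜ (M • h + m₀) u
  have h4 : GRP_L (fun m => GRP_c β ∅ (M • h + m₀ - m))
      (u * ∏ d ∈ Bᶜ, (AddMonoidAlgebra.single (β d) (1 : ℚ) - 1)) = 0 := h1
  have h5 : GRP_L (fun m => GRP_c β Bᶜ (M • h + m₀ - m)) u =
    ∑ m ∈ u.coeff.support.filter (fun m => π m = π m₀), u.coeff m := h2
  rw [h4, h5] at h3
  have h6 : ((-1 : ℚ)) ^ (Bᶜ).card ≠ 0 := pow_ne_zero _ (by norm_num)
  exact (mul_ne_zero h6 hq) h3.symm

end Pool.Newt
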