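import Pool.Agent.H39.Newt.Stmts

/-!
# RCG: the recurrence in the group ring of `Ker a`
-/

set_option autoImplicit false

namespace Pool.Newt

open MvPolynomial Pool.Agent.H39.MonoR Pool.Agent.H75.Mono

section Rel

variable {R : Type} [CommRing R] {k : Type} [Field k] (ρ : R →+* k) (Y : Finset k) (μ : k → R)

/-- the relation between elements of `k` and their images under `μ` -/
def RCG_Rel (w : k) (w' : R) : Prop :=
  ∃ x : k → R, w = ∑ y ∈ Y, ρ (x y) * y ∧ w' = ∑ y ∈ Y, x y * μ y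

variable {ρ Y μ}

theorem RCG_Rel.add {w₁ w₂ : k} {z₁ z₂ : R} (h₁ : RCG_Rel ρ Y μ w₁ z₁)
    (h₂ : RCG_Rel ρ Y μ w₂ z₂) : RCG_Rel ρ Y μ (w₁ + w₂) (z₁ + z₂) := by
  obtain ⟨x₁, rfl, rfl⟩ := h₁
  obtain ⟨x₂, rfl, rfl⟩ := h₂
  refine ⟨fun y => x₁ y + x₂ y, ?_, ?_⟩
  · rw [← Finset.sum_add_distrib]
    exact Finset.sum_congr rfl fun y _ => by rw [map_add]; ring
  · rw [← Finset.sum_add_distrib]
    exact Finset.sum_congr rfl fun y _ => by ring

theorem RCG_Rel.smul {w : k} {z : R} (h : RCG_Rel ρ Y μ w z) (r : R) :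
    RCG_Rel ρ Y μ (ρ r * w) (r * z) := by
  obtain ⟨x, rfl, rfl⟩ := h
  refine ⟨fun y => r * x y, ?_, ?_⟩
  · rw [Finset.mul_sum]
    exact Finset.sum_congr rfl fun y _ => by rw [map_mul]; ring
  · rw [Finset.mul_sum]
    exact Finset.sum_congr rfl fun y _ => by ring

theorem RCG_Rel.zero : RCG_Rel ρ Y μ 0 0 := ⟨fun _ => 0, by simp, by simp⟩

theorem RCG_Rel.single {y : k} (hy : y ∈ Y) : RCG_Rel ρ Y μ y (μ y) := by
  classical
  refine ⟨fun y' => if y' = y then 1 else 0, ?_, ?_⟩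
  · rw [Finset.sum_eq_single y]
    · simp
    · intro b _ hb
      simp [hb]
    · intro h; exact absurd hy h
  · rw [Finset.sum_eq_single y]
    · simp
    · intro b _ hb
      simp [hb]
    · intro h; exact absurd hy h

theorem RCG_Rel.sum {ι : Type} (s : Finset ι) (f : ι → k) (g : ι → R)
    (h : ∀ i ∈ s, RCG_Rel ρ Y μ (f i) (g i)) :
    RCG_Rel ρ Y μ (∑ i ∈ s, f i) (∑ i ∈ s, g i) := by
  classical
  induction s using Finset.induction_on with
  | empty => simpa using RCG_Rel.zero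
  | insert i s hi ih =>
    rw [Finset.sum_insert hi, Finset.sum_insert hi]
    exact (h i (Finset.mem_insert_self _ _)).add
      (ih fun j hj => h j (Finset.mem_insert_of_mem hj))

variable {I : Type}

/-- apply `μ` to the coefficients -/
noncomputable def RCG_map (μ : k → R) (P : MvPolynomial I k) : MvPolynomial I R :=
  ∑ s ∈ P.support, monomial s (μ (P.coeff s))

theorem RCG_Rel.poly [Fintype I] (P : MvPolynomial I k) (hP : ∀ s ∈ P.support, P.coeff s ∈ Y)
    (t : I → ℕ) : RCG_Rel ρ Y μ (eval (fun i => (t i : k)) P)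
      (eval (fun i => ((t i : ℕ) : R)) (RCG_map μ P)) := by
  have h1 : eval (fun i => (t i : k)) P =
      ∑ s ∈ P.support, ρ (∏ i, ((t i : ℕ) : R) ^ s i) * P.coeff s := by
    rw [MvPolynomial.eval_eq']
    refine Finset.sum_congr rfl fun s _ => ?_
    rw [map_prod]
    simp only [map_pow, map_natCast]
    ring
  have h2 : eval (fun i => ((t i : ℕ) : R)) (RCG_map μ P) =
      ∑ s ∈ P.support, (∏ i, ((t i : ℕ) : R) ^ s i) * μ (P.coeff s) := by
    unfold RCG_map
    rw [map_sum]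
    refine Finset.sum_congr rfl fun s _ => ?_
    rw [eval_monomial, Finsupp.prod_fintype _ _ (by simp)]
    ring
  rw [h1, h2]
  exact RCG_Rel.sum _ _ _ fun s hs => (RCG_Rel.single (hP s hs)).smul _

end Rel

section Main

variable {σ I : Type} [Fintype σ] [Fintype I] {k : Type} [Field k] [CharZero k]
  (a : I → σ → ℕ) (c : I → k)

/-- monomials in the coefficients -/
def RCG_mon (c : I → k) (κ : I → ℤ) : k := ∏ i, c i ^ κ i

theorem RCG_mon_add {c : I → k} (hc : ∀ i, c i ≠ 0) (κ κ' : I → ℤ) :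
    RCG_mon c (κ + κ') = RCG_mon c κ * RCG_mon c κ' := by
  simp [RCG_mon, zpow_add₀ (hc _), Finset.prod_mul_distrib]

theorem RCG_mon_ne {c : I → k} (hc : ∀ i, c i ≠ 0) (κ : I → ℤ) : RCG_mon c κ ≠ 0 :=
  Finset.prod_ne_zero_iff.2 fun i _ => zpow_ne_zero _ (hc i)

/-- the homomorphism `κ ↦ c^κ` -/
noncomputable def RCG_rho (hc : ∀ i, c i ≠ 0) : AddMonoidAlgebra ℚ (Ker a) →ₐ[ℚ] k :=
  AddMonoidAlgebra.lift ℚ k (Ker a)
    { toFun := fun κ => RCG_mon c ((Multiplicative.toAdd κ : Ker a) : I → ℤ)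
      map_one' := by simp [RCG_mon]
      map_mul' := fun x y => by
        rw [toAdd_mul, AddSubgroup.coe_add, RCG_mon_add hc] }

theorem RCG_rho_single (hc : ∀ i, c i ≠ 0) (κ : Ker a) (r : ℚ) :
    RCG_rho a c hc (AddMonoidAlgebra.single κ r) = (r : k) * RCG_mon c (κ : I → ℤ) := by
  unfold RCG_rho
  rw [AddMonoidAlgebra.lift_single]
  simp [Algebra.smul_def]

theorem RCG_rho_inj (hc : ∀ i, c i ≠ 0) (hg : Genk a c) :
    Function.Injective (RCG_rho a c hc) := by
  rw [injective_iff_map_eq_zero]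
  intro f hf
  have h1 : RCG_rho a c hc f = Finsupp.linearCombination ℚ
      (fun κ : Ker a => ∏ i, (c i) ^ ((κ : I → ℤ) i)) f.coeff := by
    have h2 : ((RCG_rho a c hc : AddMonoidAlgebra ℚ (Ker a) →ₐ[ℚ] k) :
        AddMonoidAlgebra ℚ (Ker a) →+ k) =
        ((Finsupp.linearCombination ℚ (fun κ : Ker a =>
          ∏ i, (c i) ^ ((κ : I → ℤ) i))).toAddMonoidHom).comp
            AddMonoidAlgebra.coeffAddEquiv.toAddMonoidHom := by
      refine AddMonoidAlgebra.addMonoidHom_ext fun m r => ?_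
      show RCG_rho a c hc (AddMonoidAlgebra.single m r) = _
      rw [RCG_rho_single]
      simp [RCG_mon, Algebra.smul_def]
    exact DFunLike.congr_fun h2 f
  rw [h1] at hf
  have h3 : Function.Injective (Finsupp.linearCombination ℚ
      (fun κ : Ker a => ∏ i, (c i) ^ ((κ : I → ℤ) i))) := hg
  have h4 : f.coeff = 0 := h3 (by rw [hf, map_zero])
  exact AddMonoidAlgebra.coeff_eq_zero.1 h4

theorem RCG_multi (t : I → ℕ) : multi (fun i => (t i : ℤ)) =
    (Nat.multinomial Finset.univ t : ℚ) := by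
  unfold multi
  rw [if_pos (fun i => by positivity)]
  simp

open Classical in
theorem RCG_Eg (hc : ∀ i, c i ≠ 0) (y : I → ℤ) (N : ℕ) (hN : ∑ i, y i = N) :
    RCG_mon c y * RCG_rho a c hc (Eg a y) =
      ∑ t ∈ (Finset.piAntidiag (Finset.univ : Finset I) N).filter
        (fun t => ∀ l, ∑ i, (t i : ℤ) * (a i l : ℤ) = ∑ i, y i * (a i l : ℤ)),
        (Nat.multinomial Finset.univ t : k) * ∏ i, c i ^ t i := by
  set F := (Finset.piAntidiag (Finset.univ : Finset I) N).filter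
    (fun t => ∀ l, ∑ i, (t i : ℤ) * (a i l : ℤ) = ∑ i, y i * (a i l : ℤ)) with hF
  have hmem : ∀ t ∈ F, (fun i => (t i : ℤ) - y i) ∈ Ker a := by
    intro t ht
    rw [hF, Finset.mem_filter, Finset.mem_piAntidiag] at ht
    obtain ⟨⟨h1, -⟩, h2⟩ := ht
    refine ⟨?_, fun l => ?_⟩
    · rw [Finset.sum_sub_distrib, hN, ← h1]
      push_cast
      ring
    · simp only [sub_mul, Finset.sum_sub_distrib]
      rw [h2 l, sub_self]
  let G : F → Ker a := fun t => ⟨fun i => ((t : I → ℕ) i : ℤ) - y i, hmem t t.2⟩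
  have hGinj : Function.Injective G := by
    intro t t' h
    apply Subtype.ext
    ext i
    have h1 := congrFun (congrArg Subtype.val h) i
    simp only [G] at h1
    omega
  have hEg : Eg a y = ∑ t ∈ F.attach, AddMonoidAlgebra.single (G t)
      (multi (y + ((G t : Ker a) : I → ℤ))) := by
    unfold Eg
    rw [finsum_eq_sum_of_support_subset (s := F.attach.image G)]
    · rw [Finset.sum_image (fun x _ y _ h => hGinj h)]
    · intro κ hκ
      rw [Function.mem_support] at hκ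
      have h1 : multi (y + (κ : I → ℤ)) ≠ 0 := by
        intro h
        rw [h] at hκ
        exact hκ (by simp)
      have h2 : ∀ i, 0 ≤ y i + (κ : I → ℤ) i := by
        by_contra hcon
        apply h1
        unfold multi
        rw [if_neg]
        exact hcon
      obtain ⟨h3, h4⟩ := κ.2
      have h5 : (fun i => (y i + (κ : I → ℤ) i).toNat) ∈ F := by
        rw [hF, Finset.mem_filter, Finset.mem_piAntidiag]
        refine ⟨⟨?_, by simp⟩, fun l => ?_⟩
        · have : ((∑ i, (y i + (κ : I → ℤ) i).toNat : ℕ) : ℤ) = (N : ℤ) := by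
            rw [Nat.cast_sum, ← hN, Finset.sum_congr rfl fun i _ => Int.toNat_of_nonneg (h2 i),
              Finset.sum_add_distrib, h3, add_zero]
          exact_mod_cast this
        · have h6 : ∀ i, (((y i + (κ : I → ℤ) i).toNat : ℕ) : ℤ) = y i + (κ : I → ℤ) i :=
            fun i => Int.toNat_of_nonneg (h2 i)
          simp only [h6, add_mul, Finset.sum_add_distrib]
          rw [h4 l, add_zero]
      rw [Finset.coe_image]
      refine ⟨⟨_, h5⟩, Finset.mem_coe.2 (Finset.mem_attach _ _), ?_⟩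
      apply Subtype.ext
      ext i
      show ((y i + (κ : I → ℤ) i).toNat : ℤ) - y i = (κ : I → ℤ) i
      rw [Int.toNat_of_nonneg (h2 i)]
      ring
  rw [hEg, map_sum, Finset.mul_sum]
  rw [← Finset.sum_attach F]
  refine Finset.sum_congr rfl fun t _ => ?_
  rw [RCG_rho_single]
  have h1 : y + ((G t : Ker a) : I → ℤ) = fun i => ((t : I → ℕ) i : ℤ) := by
    ext i
    simp [G]
  rw [mul_left_comm, ← RCG_mon_add hc, h1, RCG_multi]
  simp [RCG_mon]

theorem RCG_desc (δ : I → ℤ) (t : I → ℕ) :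
    ((eval (fun i => (t i : ℚ)) (dd a δ) : ℚ) : k) =
      eval (fun l => (((∑ i, (t i : ℤ) * (a i l : ℤ)) + ∑ i, δ i * (a i l : ℤ) : ℤ) : k))
        (desc k (fun l => -∑ i, δ i * (a i l : ℤ))) := by
  unfold dd desc
  simp only [map_prod, Rat.cast_prod]
  refine Finset.prod_congr rfl fun l _ => ?_
  rw [neg_neg]
  set m := (∑ i, δ i * (a i l : ℤ)).toNat with hm
  rw [← Finset.prod_range_reflect]
  refine Finset.prod_congr rfl fun j hj => ?_
  have hjm : j < m := Finset.mem_range.1 hj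
  have h1 : ∑ i, δ i * (a i l : ℤ) = (m : ℤ) := by omega
  have h2 : ((m - 1 - j : ℕ) : ℤ) = m - 1 - j := by omega
  simp only [map_add, map_sub, map_sum, map_mul, eval_C, eval_X]
  rw [h1]
  have h3 : (((m - 1 - j : ℕ) : ℚ)) = (m : ℚ) - 1 - j := by exact_mod_cast h2
  rw [h3]
  push_cast
  have h4 : ∑ i, (a i l : k) * (t i : k) = ∑ i, (t i : k) * (a i l : k) :=
    Finset.sum_congr rfl fun i _ => mul_comm _ _
  rw [h4]
  ring

/-- the polynomial of `δ` -/
noncomputable def RCG_P (g : Polynomial k) (r : (σ → ℤ) → MvPolynomial (Option σ) k)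
    (δ : I → ℤ) : MvPolynomial I k :=
  C (RCG_mon c δ) * Polynomial.aeval (∑ i, (X i : MvPolynomial I k)) g *
    aeval (fun o => Option.elim o (∑ i, (X i : MvPolynomial I k))
      (fun l => (∑ i, C (a i l : k) * X i) + C ((∑ i, δ i * (a i l : ℤ) : ℤ) : k)))
      (r fun l => -∑ i, δ i * (a i l : ℤ))

theorem RCG_P_eval (g : Polynomial k) (r : (σ → ℤ) → MvPolynomial (Option σ) k)
    (δ : I → ℤ) (t : I → ℕ) :
    eval (fun i => (t i : k)) (RCG_P a c g r δ) = RCG_mon c δ *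
      g.eval (((∑ i, t i : ℕ) : k)) *
      eval (fun o => Option.elim o (((∑ i, t i : ℕ) : k))
        (fun l => (((∑ i, (t i : ℤ) * (a i l : ℤ)) + ∑ i, δ i * (a i l : ℤ) : ℤ) : k)))
        (r fun l => -∑ i, δ i * (a i l : ℤ)) := by
  unfold RCG_P
  rw [map_mul, map_mul, eval_C]
  congr 1
  · congr 1
    have h1 : eval (fun i => (t i : k)) (Polynomial.aeval (∑ i, (X i : MvPolynomial I k)) g) =
        Polynomial.aeval (eval (fun i => (t i : k)) (∑ i, (X i : MvPolynomial I k))) g := by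
      have := Polynomial.aeval_algHom_apply (MvPolynomial.aeval (R := k) (fun i => (t i : k)))
        (∑ i, (X i : MvPolynomial I k)) g
      rw [MvPolynomial.aeval_eq_eval] at this
      exact this.symm
    rw [h1, Polynomial.coe_aeval_eq_eval]
    simp
  · have h2 := MvPolynomial.comp_aeval_apply (f := fun o => Option.elim o
      (∑ i, (X i : MvPolynomial I k))
      (fun l => (∑ i, C (a i l : k) * X i) + C ((∑ i, δ i * (a i l : ℤ) : ℤ) : k)))
      (MvPolynomial.aeval (R := k) (fun i => (t i : k))) (r fun l => -∑ i, δ i * (a i l : ℤ))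
    rw [← MvPolynomial.aeval_eq_eval, ← MvPolynomial.aeval_eq_eval]
    refine h2.trans ?_
    congr 2
    ext o
    cases o with
    | none => simp
    | some l =>
      simp only [Option.elim_some, map_add, map_sum, map_mul,
        MvPolynomial.aeval_X, algHom_C]
      push_cast
      simp only [map_intCast]
      congr 1
      exact Finset.sum_congr rfl fun i _ => mul_comm _ _

end Main

/-- the identity in `k` -/
theorem RCG_key {σ I : Type} [Fintype σ] [Fintype I] {k : Type} [Field k] [CharZero k]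
    (a : I → σ → ℕ) (c : I → k) (hc : ∀ i, c i ≠ 0) (b g : Polynomial k)
    (Γ : Finset (σ → ℤ)) (r : (σ → ℤ) → MvPolynomial (Option σ) k) (hcof : CofId a c b Γ r)
    (Dd : Finset (I → ℤ)) (hD1 : ∀ δ ∈ Dd, ∑ i, δ i = 1)
    (hD2 : ∀ δ ∈ Dd, (fun l => -∑ i, δ i * (a i l : ℤ)) ∈ Γ)
    (hD3 : ∀ γ ∈ Γ, (∃ δ : I → ℤ, ∑ i, δ i = 1 ∧ ∀ l, ∑ i, δ i * (a i l : ℤ) = -γ l) →
      ∃ δ ∈ Dd, (fun l => -∑ i, δ i * (a i l : ℤ)) = γ)
    (hD4 : ∀ δ ∈ Dd, ∀ δ' ∈ Dd, (fun l => -∑ i, δ i * (a i l : ℤ)) =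
      (fun l => -∑ i, δ' i * (a i l : ℤ)) → δ = δ') (t : I → ℕ) :
    (b * g).eval ((∑ i, t i : ℕ) : k) * RCG_rho a c hc (Eg a (fun i => (t i : ℤ))) =
      ∑ δ ∈ Dd, ((eval (fun i => (t i : ℚ)) (dd a δ) : ℚ) : k) *
        eval (fun i => (t i : k)) (RCG_P a c g r δ) *
          RCG_rho a c hc (Eg a (fun i => (t i : ℤ) + δ i)) := by
  classical
  have h0 := hcof (∑ i, t i) (fun l => ∑ i, t i * a i l)
  have hsumt : ∑ i, ((t i : ℕ) : ℤ) = ((∑ i, t i : ℕ) : ℤ) := by push_cast; rfl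
  have hL := RCG_Eg a c hc (fun i => (t i : ℤ)) (∑ i, t i) hsumt
  have hel : ∀ l, ((∑ i, t i * a i l : ℕ) : ℤ) = ∑ i, (t i : ℤ) * (a i l : ℤ) := by
    intro l; push_cast; rfl
  simp only [hel] at h0
  rw [← hL] at h0
  have hct := RCG_mon_ne hc (fun i => (t i : ℤ))
  have hR : ∀ γ ∈ Γ, ∑ t' ∈ (Finset.piAntidiag (Finset.univ : Finset I) (∑ i, t i + 1)).filter
        (fun t' => ∀ l, (∑ i, (t' i : ℤ) * (a i l : ℤ)) + γ l = ∑ i, (t i : ℤ) * (a i l : ℤ)),
        (Nat.multinomial Finset.univ t' : k) * (∏ i, c i ^ t' i) *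
          (eval (fun l => ∑ i, (t' i : k) * (a i l : k)) (desc k γ) *
            eval (fun o => Option.elim o ((∑ i, t i : ℕ) : k)
              (fun l => ∑ i, (t' i : k) * (a i l : k))) (r γ)) =
      (∑ t' ∈ (Finset.piAntidiag (Finset.univ : Finset I) (∑ i, t i + 1)).filter
        (fun t' => ∀ l, (∑ i, (t' i : ℤ) * (a i l : ℤ)) + γ l = ∑ i, (t i : ℤ) * (a i l : ℤ)),
        (Nat.multinomial Finset.univ t' : k) * (∏ i, c i ^ t' i)) *
          (eval (fun l => (((∑ i, (t i : ℤ) * (a i l : ℤ)) - γ l : ℤ) : k)) (desc k γ) *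
            eval (fun o => Option.elim o ((∑ i, t i : ℕ) : k)
              (fun l => (((∑ i, (t i : ℤ) * (a i l : ℤ)) - γ l : ℤ) : k))) (r γ)) := by
    intro γ _
    rw [Finset.sum_mul]
    refine Finset.sum_congr rfl fun t' ht' => ?_
    rw [Finset.mem_filter] at ht'
    have h1 : ∀ l, ∑ i, (t' i : k) * (a i l : k) =
        (((∑ i, (t i : ℤ) * (a i l : ℤ)) - γ l : ℤ) : k) := by
      intro l
      have h2 : ∑ i, (t' i : ℤ) * (a i l : ℤ) = (∑ i, (t i : ℤ) * (a i l : ℤ)) - γ l := by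
        have := ht'.2 l
        linarith
      rw [← h2]
      push_cast
      rfl
    simp only [h1]
  rw [Finset.sum_congr rfl hR] at h0
  -- the terms
  have hT : ∑ γ ∈ Γ, (∑ t' ∈ (Finset.piAntidiag (Finset.univ : Finset I) (∑ i, t i + 1)).filter
        (fun t' => ∀ l, (∑ i, (t' i : ℤ) * (a i l : ℤ)) + γ l = ∑ i, (t i : ℤ) * (a i l : ℤ)),
        (Nat.multinomial Finset.univ t' : k) * (∏ i, c i ^ t' i)) *
          (eval (fun l => (((∑ i, (t i : ℤ) * (a i l : ℤ)) - γ l : ℤ) : k)) (desc k γ) *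
            eval (fun o => Option.elim o ((∑ i, t i : ℕ) : k)
              (fun l => (((∑ i, (t i : ℤ) * (a i l : ℤ)) - γ l : ℤ) : k))) (r γ)) =
      ∑ δ ∈ Dd, (RCG_mon c (fun i => (t i : ℤ)) * RCG_mon c δ *
        RCG_rho a c hc (Eg a (fun i => (t i : ℤ) + δ i))) *
        (((eval (fun i => (t i : ℚ)) (dd a δ) : ℚ) : k) *
          eval (fun o => Option.elim o (((∑ i, t i : ℕ) : k))
        (fun l => (((∑ i, (t i : ℤ) * (a i l : ℤ)) + ∑ i, δ i * (a i l : ℤ) : ℤ) : k)))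
        (r fun l => -∑ i, δ i * (a i l : ℤ))) := by
    symm
    refine Finset.sum_of_injOn (fun δ => fun l => -∑ i, δ i * (a i l : ℤ)) ?_ ?_ ?_ ?_
    · intro δ hδ δ' hδ' h
      exact hD4 δ hδ δ' hδ' h
    · intro δ hδ
      exact hD2 δ hδ
    · intro γ hγ hnot
      rw [Finset.sum_eq_zero, zero_mul]
      intro t' ht'
      exfalso
      apply hnot
      rw [Finset.mem_filter, Finset.mem_piAntidiag] at ht'
      obtain ⟨⟨h1, -⟩, h2⟩ := ht'
      obtain ⟨δ, hδ, h3⟩ := hD3 γ hγ ⟨fun i => (t' i : ℤ) - t i, by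
        rw [Finset.sum_sub_distrib, hsumt]
        have : ((∑ i, t' i : ℕ) : ℤ) = ((∑ i, t i + 1 : ℕ) : ℤ) := by rw [← h1]
        push_cast at this ⊢
        linarith, fun l => by
        simp only [sub_mul, Finset.sum_sub_distrib]
        have := h2 l
        linarith⟩
      exact ⟨δ, hδ, h3⟩
    · intro δ hδ
      have h1 := RCG_Eg a c hc (fun i => (t i : ℤ) + δ i) (∑ i, t i + 1) (by
        rw [Finset.sum_add_distrib, hsumt, hD1 δ hδ]
        push_cast
        ring)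
      have h2 : RCG_mon c (fun i => (t i : ℤ) + δ i) =
          RCG_mon c (fun i => (t i : ℤ)) * RCG_mon c δ := RCG_mon_add hc _ _
      rw [h2] at h1
      rw [h1, RCG_desc]
      have h3 : ∀ (t' : I → ℕ), (∀ l, ∑ i, (t' i : ℤ) * (a i l : ℤ) =
          ∑ i, ((t i : ℤ) + δ i) * (a i l : ℤ)) ↔
          (∀ l, (∑ i, (t' i : ℤ) * (a i l : ℤ)) + -∑ i, δ i * (a i l : ℤ) =
            ∑ i, (t i : ℤ) * (a i l : ℤ)) := by
        intro t'
        refine forall_congr' fun l => ?_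
        simp only [add_mul, Finset.sum_add_distrib]
        constructor
        · intro h; linarith
        · intro h; linarith
      simp only [h3]
      simp only [sub_neg_eq_add]
  rw [hT] at h0
  -- multiply by `g` and divide
  have h5 : RCG_mon c (fun i => (t i : ℤ)) * ((b * g).eval ((∑ i, t i : ℕ) : k) *
      RCG_rho a c hc (Eg a (fun i => (t i : ℤ)))) = RCG_mon c (fun i => (t i : ℤ)) *
      ∑ δ ∈ Dd, ((eval (fun i => (t i : ℚ)) (dd a δ) : ℚ) : k) *
        eval (fun i => (t i : k)) (RCG_P a c g r δ) *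
          RCG_rho a c hc (Eg a (fun i => (t i : ℤ) + δ i)) := by
    have h6 := congrArg (fun z => z * g.eval ((∑ i, t i : ℕ) : k)) h0
    rw [Polynomial.eval_mul]
    rw [Finset.mul_sum]
    rw [Finset.sum_mul] at h6
    simp only [RCG_P_eval]
    refine Eq.trans ?_ (h6.trans ?_)
    · ring
    · refine Finset.sum_congr rfl fun δ _ => ?_
      ring
  exact mul_left_cancel₀ hct h5

theorem sRcg (hFun : SFun) : SRcg := by
  classical
  intro σ I _ _ k _ _ a c hc hg b α K hb hcf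
  obtain ⟨Γ, r, hcof⟩ := hcf
  have hcop : IsCoprime b ((Polynomial.X - Polynomial.C (α : k)) ^ K) := by
    refine IsCoprime.pow_right (IsCoprime.symm ?_)
    rw [(Polynomial.irreducible_X_sub_C (α : k)).coprime_iff_not_dvd, Polynomial.dvd_iff_isRoot]
    exact hb
  obtain ⟨g, h, hgh⟩ := hcop
  let P : (σ → ℤ) → Prop := fun γ => ∃ δ : I → ℤ, ∑ i, δ i = 1 ∧
    ∀ l, ∑ i, δ i * (a i l : ℤ) = -γ l
  let δf : (σ → ℤ) → I → ℤ := fun γ => if hγ : P γ then hγ.choose else 0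
  have hδf : ∀ γ, P γ → ∑ i, δf γ i = 1 ∧ ∀ l, ∑ i, δf γ i * (a i l : ℤ) = -γ l := by
    intro γ hγ
    have h1 : δf γ = hγ.choose := dif_pos hγ
    rw [h1]
    exact hγ.choose_spec
  have hδf2 : ∀ γ, P γ → (fun l => -∑ i, δf γ i * (a i l : ℤ)) = γ := by
    intro γ hγ
    ext l
    rw [(hδf γ hγ).2 l, neg_neg]
  set Dd : Finset (I → ℤ) := (Γ.filter P).image δf with hDd
  have hmemD : ∀ δ ∈ Dd, ∃ γ ∈ Γ, P γ ∧ δf γ = δ := by
    intro δ hδ
    rw [hDd, Finset.mem_image] at hδ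
    obtain ⟨γ, hγ, h1⟩ := hδ
    rw [Finset.mem_filter] at hγ
    exact ⟨γ, hγ.1, hγ.2, h1⟩
  have hkey := RCG_key a c hc b g Γ r hcof Dd
    (by
      intro δ hδ
      obtain ⟨γ, _, h2, rfl⟩ := hmemD δ hδ
      exact (hδf γ h2).1)
    (by
      intro δ hδ
      obtain ⟨γ, h1, h2, rfl⟩ := hmemD δ hδ
      rw [hδf2 γ h2]
      exact h1)
    (by
      intro γ hγ hP
      refine ⟨δf γ, ?_, hδf2 γ hP⟩
      rw [hDd]
      exact Finset.mem_image_of_mem _ (Finset.mem_filter.2 ⟨hγ, hP⟩))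
    (by
      intro δ hδ δ' hδ' he
      obtain ⟨γ, h1, h2, rfl⟩ := hmemD δ hδ
      obtain ⟨γ', h1', h2', rfl⟩ := hmemD δ' hδ'
      rw [hδf2 γ h2, hδf2 γ' h2'] at he
      rw [he])
  set Hk : MvPolynomial I k := Polynomial.aeval (∑ i, (X i : MvPolynomial I k)) (-h) with hHk
  set Y : Finset k := {1} ∪ (Hk.support.image Hk.coeff ∪
    Dd.biUnion fun δ => (RCG_P a c g r δ).support.image (RCG_P a c g r δ).coeff) with hY
  have hY1 : (1 : k) ∈ Y := by simp [hY]
  have hYH : ∀ s ∈ Hk.support, Hk.coeff s ∈ Y := by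
    intro s hs
    rw [hY]
    exact Finset.mem_union_right _ (Finset.mem_union_left _ (Finset.mem_image_of_mem _ hs))
  have hYP : ∀ δ ∈ Dd, ∀ s ∈ (RCG_P a c g r δ).support, (RCG_P a c g r δ).coeff s ∈ Y := by
    intro δ hδ s hs
    rw [hY]
    exact Finset.mem_union_right _ (Finset.mem_union_right _
      (Finset.mem_biUnion.2 ⟨δ, hδ, Finset.mem_image_of_mem _ hs⟩))
  let _ : Algebra (AddMonoidAlgebra ℚ (Ker a)) k := (RCG_rho a c hc).toRingHom.toAlgebra
  obtain ⟨μ, hμ1, hμ⟩ := hFun (AddMonoidAlgebra ℚ (Ker a)) k (RCG_rho_inj a c hc hg) Y hY1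
  set ρ : AddMonoidAlgebra ℚ (Ker a) →+* k := (RCG_rho a c hc).toRingHom with hρ
  have hzero : ∀ w' : AddMonoidAlgebra ℚ (Ker a), RCG_Rel ρ Y μ 0 w' → w' = 0 := by
    rintro w' ⟨x, h1, h2⟩
    rw [h2]
    exact hμ x h1.symm
  refine ⟨μ 1, RCG_map μ Hk, Dd, fun δ => RCG_map μ (RCG_P a c g r δ), hμ1, ?_, fun t => ?_⟩
  · intro δ hδ
    obtain ⟨γ, _, h2, rfl⟩ := hmemD δ hδ
    exact (hδf γ h2).1
  have hL1 := (RCG_Rel.single (ρ := ρ) (μ := μ) hY1).smul (Eg a (fun i => (t i : ℤ)))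
  have hL2 := (RCG_Rel.poly (ρ := ρ) (μ := μ) Hk hYH t).smul
    (algebraMap ℚ (AddMonoidAlgebra ℚ (Ker a)) (((∑ i, (t i : ℚ)) - α) ^ K) *
      Eg a (fun i => (t i : ℤ)))
  have hR := RCG_Rel.sum (ρ := ρ) (Y := Y) (μ := μ) Dd
    (fun δ => ρ (algebraMap ℚ (AddMonoidAlgebra ℚ (Ker a)) (eval (fun i => (t i : ℚ)) (dd a δ)) *
      Eg a (fun i => (t i : ℤ) + δ i)) * eval (fun i => (t i : k)) (RCG_P a c g r δ))
    (fun δ => (algebraMap ℚ (AddMonoidAlgebra ℚ (Ker a)) (eval (fun i => (t i : ℚ)) (dd a δ)) *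
      Eg a (fun i => (t i : ℤ) + δ i)) *
        eval (fun i => ((t i : ℕ) : AddMonoidAlgebra ℚ (Ker a))) (RCG_map μ (RCG_P a c g r δ)))
    (fun δ hδ => (RCG_Rel.poly (ρ := ρ) (μ := μ) _ (hYP δ hδ) t).smul _)
  have hall := (hL1.add hL2).add (hR.smul (-1))
  have hρa : ∀ q : ℚ, ρ (algebraMap ℚ (AddMonoidAlgebra ℚ (Ker a)) q) = (q : k) := by
    intro q
    have : ρ (algebraMap ℚ (AddMonoidAlgebra ℚ (Ker a)) q) = algebraMap ℚ k q :=
      (RCG_rho a c hc).commutes q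
    rw [this]
    rfl
  have hHe : eval (fun i => (t i : k)) Hk = (-h).eval ((∑ i, t i : ℕ) : k) := by
    rw [hHk]
    have := Polynomial.aeval_algHom_apply (MvPolynomial.aeval (R := k) (fun i => (t i : k)))
      (∑ i, (X i : MvPolynomial I k)) (-h)
    rw [MvPolynomial.aeval_eq_eval] at this
    refine this.symm.trans ?_
    rw [Polynomial.coe_aeval_eq_eval]
    simp
  have hval : ρ (Eg a (fun i => (t i : ℤ))) * 1 +
      ρ (algebraMap ℚ (AddMonoidAlgebra ℚ (Ker a)) (((∑ i, (t i : ℚ)) - α) ^ K) *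
      Eg a (fun i => (t i : ℤ))) * eval (fun i => (t i : k)) Hk + ρ (-1) *
      ∑ δ ∈ Dd, ρ (algebraMap ℚ (AddMonoidAlgebra ℚ (Ker a)) (eval (fun i => (t i : ℚ)) (dd a δ)) *
      Eg a (fun i => (t i : ℤ) + δ i)) * eval (fun i => (t i : k)) (RCG_P a c g r δ) = 0 := by
    have h1 := hkey t
    have h2 : (b * g).eval ((∑ i, t i : ℕ) : k) = 1 +
        (((∑ i, t i : ℕ) : k) - α) ^ K * (-h).eval ((∑ i, t i : ℕ) : k) := by
      have h3 := congrArg (Polynomial.eval ((∑ i, t i : ℕ) : k)) hgh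
      simp only [Polynomial.eval_add, Polynomial.eval_mul, Polynomial.eval_pow,
        Polynomial.eval_sub, Polynomial.eval_X, Polynomial.eval_C, Polynomial.eval_one] at h3
      rw [Polynomial.eval_mul, Polynomial.eval_neg]
      linear_combination h3
    rw [h2] at h1
    have h4 : ∀ z, ρ z = RCG_rho a c hc z := fun z => rfl
    rw [map_neg, map_one, map_mul, hρa, hHe]
    simp only [map_mul, hρa]
    simp only [h4]
    have h5 : ∑ δ ∈ Dd, ((eval (fun i => (t i : ℚ)) (dd a δ) : ℚ) : k) *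
        RCG_rho a c hc (Eg a (fun i => (t i : ℤ) + δ i)) *
          eval (fun i => (t i : k)) (RCG_P a c g r δ) =
        ∑ δ ∈ Dd, ((eval (fun i => (t i : ℚ)) (dd a δ) : ℚ) : k) *
          eval (fun i => (t i : k)) (RCG_P a c g r δ) *
            RCG_rho a c hc (Eg a (fun i => (t i : ℤ) + δ i)) :=
      Finset.sum_congr rfl fun δ _ => by ring
    rw [h5, ← h1]
    push_cast
    ring
  rw [hval] at hall
  have hfin := hzero _ hall
  have h6 : ∑ δ ∈ Dd, (algebraMap ℚ (AddMonoidAlgebra ℚ (Ker a))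
      (eval (fun i => (t i : ℚ)) (dd a δ)) * Eg a (fun i => (t i : ℤ) + δ i)) *
        eval (fun i => ((t i : ℕ) : AddMonoidAlgebra ℚ (Ker a))) (RCG_map μ (RCG_P a c g r δ)) =
      ∑ δ ∈ Dd, algebraMap ℚ (AddMonoidAlgebra ℚ (Ker a)) (eval (fun i => (t i : ℚ)) (dd a δ)) *
        eval (fun i => ((t i : ℕ) : AddMonoidAlgebra ℚ (Ker a))) (RCG_map μ (RCG_P a c g r δ)) *
          Eg a (fun i => (t i : ℤ) + δ i) := Finset.sum_congr rfl fun δ _ => by ring
  rw [h6] at hfin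
  linear_combination hfin

end Pool.Newt
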